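import Pool.Agent.Run7.h400.GK.StmA

/-!
# Piece GS2 of project GK (helper400), by helper834: the Cartier operator on `E ⊗ F`
-/

set_option autoImplicit false
set_option linter.all false

namespace Run7.h834.GK.GS2

open Polynomial Finset TensorProduct nonZeroDivisors Run7.h400.GK

theorem t_GS2 : S_GS2 := by
  intro Fq E F _ _ _ _ _ _ _ p T Cr hp hchar hC
  haveI : Fact p.Prime := ⟨hp⟩
  haveI : CharP Fq p := hchar
  haveI : CharP E p := (Algebra.charP_iff Fq E p).mp hchar
  haveI : Nontrivial (E ⊗[Fq] F) := inferInstance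
  haveI : CharP (E ⊗[Fq] F) p := (Algebra.charP_iff Fq (E ⊗[Fq] F) p).mp hchar
  haveI : Finite E := inferInstance
  haveI : Finite Fq := inferInstance
  haveI : PerfectRing E p := inferInstance
  haveI : PerfectRing Fq p := inferInstance
  obtain ⟨ρ, hρ⟩ : ∃ ρ : E →+* E, ∀ e, ρ (e ^ p) = e := by
    refine ⟨(frobeniusEquiv E p).symm.toRingHom, fun e => ?_⟩
    exact (frobeniusEquiv E p).symm_apply_apply e
  have hb : ∀ c : Fq, ∃ b : Fq, b ^ p = c := fun c => by
    obtain ⟨b, hb⟩ := (frobeniusEquiv Fq p).surjective c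
    exact ⟨b, hb⟩
  let f : E →+ F →+ E ⊗[Fq] F :=
    { toFun := fun e => (TensorProduct.mk Fq E F (ρ e)).toAddMonoidHom.comp Cr
      map_zero' := by
        ext x
        simp
      map_add' := by
        intro a b
        ext x
        simp [TensorProduct.add_tmul] }
  have hf : ∀ (e : E) (x : F), f e x = ρ e ⊗ₜ[Fq] Cr x := fun e x => rfl
  have hbal : ∀ (r : Fq) (m : E) (n : F), f (r • m) n = f m (r • n) := by
    intro r m n
    obtain ⟨b, rfl⟩ := hb r
    rw [hf, hf]
    have h1 : ρ (b ^ p • m) = b • ρ m := by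
      rw [Algebra.smul_def, map_pow, map_mul, hρ, ← Algebra.smul_def]
    have h2 : Cr (b ^ p • n) = b • Cr n := by
      rw [Algebra.smul_def, map_pow, hC.1, ← Algebra.smul_def]
    rw [h1, h2, TensorProduct.smul_tmul]
  let CM : E ⊗[Fq] F →+ E ⊗[Fq] F := TensorProduct.liftAddHom f hbal
  have hCM : ∀ (e : E) (x : F), CM (e ⊗ₜ[Fq] x) = ρ e ⊗ₜ[Fq] Cr x := fun e x => by
    change TensorProduct.liftAddHom f hbal (e ⊗ₜ[Fq] x) = _
    rw [TensorProduct.liftAddHom_tmul]
    rfl
  refine ⟨CM, fun e x => by rw [hCM, hρ], fun x y => ?_⟩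
  induction y using TensorProduct.induction_on with
  | zero => rw [mul_zero, map_zero, mul_zero]
  | add y z hy hz => rw [mul_add, map_add, map_add, mul_add, hy, hz]
  | tmul e z =>
    induction x using TensorProduct.induction_on with
    | zero => rw [zero_pow hp.ne_zero, zero_mul, map_zero, zero_mul]
    | add x x' hx hx' => rw [add_pow_char, add_mul, map_add, hx, hx', add_mul]
    | tmul a b =>
      rw [Algebra.TensorProduct.tmul_pow, Algebra.TensorProduct.tmul_mul_tmul, hCM, hCM,
        Algebra.TensorProduct.tmul_mul_tmul, map_mul, hρ, hC.1]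

end Run7.h834.GK.GS2
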