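import Pool.Agent.Run7.h400.GK.StmA

/-!
# Piece ZGA of project GK (helper400), by helper834: the elements `z_γ`
-/

set_option autoImplicit false
set_option linter.all false

namespace Run7.h834.GK.ZGA

open Polynomial Finset TensorProduct nonZeroDivisors Run7.h400.GK

/-- `∑_{s < n} Cr^s` -/
noncomputable def cs {F : Type} [Field F] (Cr : F →+ F) (n : ℕ) : F →+ F where
  toFun x := ∑ s ∈ range n, Cr^[s] x
  map_zero' := Finset.sum_eq_zero fun s _ => iterate_map_zero Cr s
  map_add' x y := by
    rw [← Finset.sum_add_distrib]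
    exact Finset.sum_congr rfl fun s _ => iterate_map_add Cr s x y

theorem cs_apply {F : Type} [Field F] (Cr : F →+ F) (n : ℕ) (x : F) :
    cs Cr n x = ∑ s ∈ range n, Cr^[s] x := rfl

theorem iter_pow {F : Type} [Field F] (p : ℕ) (Cr : F →+ F)
    (h : ∀ x y, Cr (x ^ p * y) = x * Cr y) (s : ℕ) :
    ∀ b x : F, Cr^[s] (b ^ (p ^ s) * x) = b * Cr^[s] x := by
  induction s with
  | zero => intro b x; simp
  | succ s ih =>
    intro b x
    rw [Function.iterate_succ_apply, pow_succ, pow_mul, h, ih, Function.iterate_succ_apply]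

/-- Nonvanishing. -/
theorem nonvan {Fq F : Type} [Field Fq] [Fintype Fq] [Field F] [Algebra Fq F] (p f₀ : ℕ)
    (hp : p.Prime) (hf : 0 < f₀) (hq : Fintype.card Fq = p ^ f₀) (Cr : F →+ F)
    (h : ∀ x y, Cr (x ^ p * y) = x * Cr y) (x : F)
    (h0 : ∀ c : Fq, cs Cr f₀ (algebraMap Fq F c * x) = 0) : x = 0 := by
  classical
  by_contra hx
  let P : F[X] := ∑ s ∈ range f₀, C (Cr^[s] x) * X ^ (p ^ (f₀ - 1 - s))
  have hP0 : P.coeff (p ^ (f₀ - 1)) = x := by
    change (∑ s ∈ range f₀, C (Cr^[s] x) * X ^ (p ^ (f₀ - 1 - s))).coeff (p ^ (f₀ - 1)) = x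
    rw [Polynomial.finset_sum_coeff, Finset.sum_eq_single 0]
    · rw [Polynomial.coeff_C_mul, Polynomial.coeff_X_pow, Nat.sub_zero, if_pos rfl, mul_one]
      rfl
    · intro s hs hs0
      rw [Polynomial.coeff_C_mul, Polynomial.coeff_X_pow, if_neg, mul_zero]
      intro he
      have h1 := Nat.pow_right_injective hp.two_le he
      have h2 := Finset.mem_range.mp hs
      omega
    · intro hn
      exact absurd (Finset.mem_range.mpr hf) hn
  have hP : P ≠ 0 := by
    intro hP
    rw [hP, Polynomial.coeff_zero] at hP0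
    exact hx hP0.symm
  have hdeg : P.natDegree ≤ p ^ (f₀ - 1) := by
    apply Polynomial.natDegree_sum_le_of_forall_le
    intro s _
    refine (Polynomial.natDegree_C_mul_X_pow_le _ _).trans ?_
    exact Nat.pow_le_pow_right hp.pos (Nat.sub_le _ _)
  have hroot : ∀ a : Fq, P.eval (algebraMap Fq F a) = 0 := by
    intro a
    have h1 := h0 (a ^ (p ^ (f₀ - 1)))
    rw [cs_apply] at h1
    rw [← h1]
    change (∑ s ∈ range f₀, C (Cr^[s] x) * X ^ (p ^ (f₀ - 1 - s))).eval _ = _
    rw [Polynomial.eval_finset_sum]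
    apply Finset.sum_congr rfl
    intro s hs
    have h2 := Finset.mem_range.mp hs
    have h3 : p ^ (f₀ - 1) = p ^ (f₀ - 1 - s) * p ^ s := by
      rw [← pow_add]; congr 1; omega
    rw [Polynomial.eval_mul, Polynomial.eval_C, Polynomial.eval_pow, Polynomial.eval_X, h3,
      pow_mul, map_pow, iter_pow p Cr h, map_pow, mul_comm]
  have hcard : (Finset.univ.image (algebraMap Fq F)).card = p ^ f₀ := by
    rw [Finset.card_image_of_injective _ (algebraMap Fq F).injective, Finset.card_univ, hq]
  have hsub : (Finset.univ.image (algebraMap Fq F)).val ≤ P.roots := by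
    rw [Multiset.le_iff_subset (Finset.nodup _)]
    intro y hy
    obtain ⟨a, _, rfl⟩ := Finset.mem_image.mp (Finset.mem_val.mp hy)
    rw [Polynomial.mem_roots hP]
    exact hroot a
  have h4 : p ^ f₀ ≤ p ^ (f₀ - 1) := by
    rw [← hcard]
    exact ((Multiset.card_le_card hsub).trans (Polynomial.card_roots' P)).trans hdeg
  have h5 : p ^ (f₀ - 1) < p ^ f₀ := Nat.pow_lt_pow_right hp.one_lt (by omega)
  omega

theorem t_ZGA : S_TGA → S_ZGA := by
  intro hTGA Fq E F _ _ _ _ _ _ _ _ _ _ _ w θ p f₀ q d k lm Cr u hDat hCFD hp hq hk hk2 hkq hC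
    hCs hCi hu huz
  obtain ⟨Tg, t1, t2, t3, t4, t5, t6⟩ := hTGA Fq E F w θ p f₀ q d k lm Cr u hDat hCFD hp hq hk hk2
    hkq hC hu huz
  have hcard : Fintype.card Fq = p ^ f₀ := by rw [← hq, hDat.hq]
  have hf : 0 < f₀ := by
    rcases Nat.eq_zero_or_pos f₀ with h | h
    · exfalso
      have h1 : 1 < Fintype.card Fq := Fintype.one_lt_card
      rw [hcard, h, pow_zero] at h1
      exact lt_irrefl _ h1
    · exact h
  let zg : E[X] →+ (E →+ F) :=
    { toFun := fun f => (cs Cr f₀).comp (Tg f)
      map_zero' := by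
        ext γ
        simp
      map_add' := by
        intro f g
        ext γ
        simp }
  have hz : ∀ f γ, zg f γ = ∑ s ∈ range f₀, Cr^[s] (Tg f γ) := fun f γ => rfl
  refine ⟨zg, ?_, ?_, ?_, ?_, ?_⟩
  · intro e f γ
    rw [hz, hz, t1]
  · intro f γ
    rw [hz, Finset.mul_sum]
    apply IsIntegral.sum
    intro s _
    have : ∀ (s : ℕ) (x : F), IsIntegral Fq[X] (lm ^ (q ^ d - 2) * x) →
        IsIntegral Fq[X] (lm ^ (q ^ d - 2) * Cr^[s] x) := by
      intro s
      induction s with
      | zero => intro x hx; exact hx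
      | succ s ih =>
        intro x hx
        rw [Function.iterate_succ_apply]
        exact ih _ (hCi x hx)
    exact this s _ (t3 f γ)
  · intro f γ σ
    rw [hz, hz, map_sum]
    apply Finset.sum_congr rfl
    intro s _
    rw [← t4]
    have : ∀ (s : ℕ) (x : F), σ (Cr^[s] x) = Cr^[s] (σ x) := by
      intro s
      induction s with
      | zero => intro x; rfl
      | succ s ih =>
        intro x
        rw [Function.iterate_succ_apply, Function.iterate_succ_apply, ih, hCs]
    exact this s _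
  · intro f hf1 hf0
    obtain ⟨γ, hγ⟩ := t5 f hf0
    by_contra hcon
    push Not at hcon
    apply hγ
    apply nonvan (Fq := Fq) p f₀ hp hf hcard Cr hC.1
    intro c
    have := hcon (algebraMap Fq E c * γ)
    rw [hz, t2] at this
    exact this
  · intro f hf1 γ
    rw [hz, map_sum]
    have h1 : ∑ s ∈ range f₀, Cr (Cr^[s] (Tg f γ)) + Tg f γ =
        ∑ s ∈ range f₀, Cr^[s] (Tg f γ) + Tg f γ := by
      have h2 := Finset.sum_range_succ' (fun s => Cr^[s] (Tg f γ)) f₀
      rw [Finset.sum_range_succ, t6 f hf1] at h2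
      rw [h2]
      congr 1
      exact Finset.sum_congr rfl fun s _ => (Function.iterate_succ_apply' _ _ _).symm
    exact add_right_cancel h1

end Run7.h834.GK.ZGA
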