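import Mathlib
import Pool.Agent.Run7.h400.GK.StmC

/-! Project GK (helper400), piece POW: powers of the matrix of `f ↦ Λ_q (f P)`. -/

set_option autoImplicit false
set_option linter.all false

namespace Run7.h834.GK

open Polynomial Finset Run7.h400.GK

lemma lam_mul {E : Type} [CommRing E] {Q : ℕ} (hQ : 1 ≤ Q) (g : E[X]) (P : E[X]) (K : ℕ) :
    (Lam Q g * P).coeff K = (g * expand E Q P).coeff (Q * K + Q - 1) := by
  induction P using Polynomial.induction_on' with
  | add p q hp hq =>
    rw [mul_add, coeff_add, hp, hq, map_add, mul_add, coeff_add]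
  | monomial b c =>
    rw [expand_monomial, ← C_mul_X_pow_eq_monomial, ← C_mul_X_pow_eq_monomial]
    have e1 : Lam Q g * (C c * X ^ b) = C c * (Lam Q g * X ^ b) := by ring
    have e2 : g * (C c * X ^ (b * Q)) = C c * (g * X ^ (b * Q)) := by ring
    rw [e1, e2, coeff_C_mul, coeff_C_mul, coeff_mul_X_pow', coeff_mul_X_pow', coeff_Lam hQ]
    congr 1
    by_cases h : b ≤ K
    · have h1 : b * Q ≤ Q * K := by
        rw [mul_comm]; exact Nat.mul_le_mul_left _ h
      rw [if_pos h, if_pos (by omega)]
      congr 1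
      have h2 : Q * (K - b) = Q * K - b * Q := by
        rw [Nat.mul_sub, mul_comm b Q]
      omega
    · have h1 : Q * K + Q ≤ b * Q := by
        have : K + 1 ≤ b := by omega
        calc Q * K + Q = (K + 1) * Q := by ring
          _ ≤ b * Q := Nat.mul_le_mul_right _ this
      rw [if_neg h, if_neg (by omega)]

lemma deg_Pr {E : Type} [CommRing E] {q n : ℕ} (hq : 1 ≤ q) {P : E[X]} (hP : P.natDegree ≤ n * (q - 1)) :
    ∀ r : ℕ, (Pr q P r).natDegree ≤ n * (q ^ r - 1) := by
  intro r
  induction r with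
  | zero => simp [Pr]
  | succ r ih =>
    have e : Pr q P (r + 1) = Pr q P r * expand E (q ^ r) P := by
      unfold Pr
      rw [Finset.prod_range_succ]
    rw [e]
    refine natDegree_mul_le.trans ?_
    rw [natDegree_expand]
    obtain ⟨t, ht⟩ : ∃ t, q = t + 1 := ⟨q - 1, by omega⟩
    subst ht
    obtain ⟨A, hA⟩ : ∃ A, (t + 1) ^ r = A + 1 := ⟨(t + 1) ^ r - 1, by
      have : 1 ≤ (t + 1) ^ r := Nat.one_le_pow _ _ hq
      omega⟩
    rw [pow_succ, hA]
    rw [hA] at ih
    simp only [Nat.add_sub_cancel] at ih hP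
    have h1 : P.natDegree * (A + 1) ≤ n * t * (A + 1) := Nat.mul_le_mul_right _ hP
    have h2 : (A + 1) * (t + 1) - 1 = A + t * (A + 1) := by
      have : (A + 1) * (t + 1) = A + t * (A + 1) + 1 := by ring
      omega
    rw [h2]
    calc (Pr (t + 1) P r).natDegree + P.natDegree * (A + 1) ≤ n * A + n * t * (A + 1) := add_le_add ih h1
      _ = n * (A + t * (A + 1)) := by ring

theorem t_POW : S_POW := by
  intro E _ q n m R P hq hn hP hR r
  induction r with
  | zero =>
    intro i j
    rw [pow_zero, one_mul]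
    have e : Pr q P (0 + 1) = P := by
      unfold Pr
      simp
    rw [e]
    simp [MatM]
  | succ r ih =>
    intro i j
    rw [pow_succ', mul_assoc, Matrix.mul_apply]
    obtain ⟨Q, hQ⟩ : ∃ Q, Q = q ^ (r + 1) := ⟨_, rfl⟩
    have hQ1 : 2 ≤ Q := by
      rw [hQ]
      calc 2 ≤ q := hq
        _ = q ^ 1 := (pow_one q).symm
        _ ≤ q ^ (r + 1) := Nat.pow_le_pow_right (by omega) (by omega)
    obtain ⟨g, hg⟩ : ∃ g : E[X], g = X ^ ((j : ℕ) + m) * Pr q P (r + 1) := ⟨_, rfl⟩
    have h1 : ∀ l : Fin R, MatP q P R i l * (MatP q P R ^ r * MatM q P R m) l j =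
        (X ^ (l : ℕ) * P).coeff (q * i + q - 1) * g.coeff (Q * l + Q - 1) := by
      intro l
      rw [ih l j, hg, hQ]
      rfl
    rw [Finset.sum_congr rfl (fun l _ => h1 l)]
    rw [Fin.sum_univ_eq_sum_range (fun l : ℕ => ((X : E[X]) ^ l * P).coeff (q * (i : ℕ) + q - 1) *
      g.coeff (Q * l + Q - 1)) R]
    have hR1 : 1 ≤ R := by omega
    have hdeg : (Lam Q g).natDegree < R := by
      have : (Lam Q g).natDegree ≤ R - 1 := by
        rw [natDegree_le_iff_coeff_eq_zero]
        intro N hN
        rw [coeff_Lam (by omega)]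
        apply coeff_eq_zero_of_natDegree_lt
        have hg1 : g.natDegree ≤ ((j : ℕ) + m) + n * (Q - 1) := by
          rw [hg]
          refine natDegree_mul_le.trans ?_
          apply add_le_add
          · exact natDegree_X_pow_le _
          · rw [hQ]
            exact deg_Pr (by omega) hP (r + 1)
        have hj : (j : ℕ) < R := j.isLt
        obtain ⟨T, hT⟩ : ∃ T, Q = T + 1 := ⟨Q - 1, by omega⟩
        obtain ⟨s, hs⟩ : ∃ s, R = n + m + s := ⟨R - (n + m), by omega⟩
        obtain ⟨v, hv⟩ : ∃ v, N = R + v := ⟨N - R, by omega⟩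
        rw [hT] at hg1 ⊢
        simp only [Nat.add_sub_cancel] at hg1
        have h3 : (T + 1) * N + (T + 1) - 1 = T * N + N + T := by
          have : (T + 1) * N + (T + 1) = T * N + N + T + 1 := by ring
          omega
        rw [h3]
        have h4 : n * T + m ≤ T * N := by
          have h5 : T * (n + m) ≤ T * N := Nat.mul_le_mul_left _ (by omega)
          have h6 : T * (n + m) = n * T + T * m := by ring
          have h7 : m ≤ T * m := Nat.le_mul_of_pos_left _ (by omega)
          omega
        omega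
      omega
    have h2 : ∑ l ∈ range R, (X ^ l * P).coeff (q * i + q - 1) * g.coeff (Q * l + Q - 1) =
        (Lam Q g * P).coeff (q * i + q - 1) := by
      conv_rhs => rw [as_sum_range' (Lam Q g) R hdeg]
      rw [Finset.sum_mul, finsetSum_coeff]
      apply Finset.sum_congr rfl
      intro l _
      rw [coeff_Lam (by omega), ← C_mul_X_pow_eq_monomial, mul_assoc, coeff_C_mul, mul_comm]
    rw [h2, lam_mul (by omega)]
    have h3 : g * expand E Q P = X ^ ((j : ℕ) + m) * Pr q P (r + 1 + 1) := by
      rw [hg, hQ]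
      have : Pr q P (r + 1 + 1) = Pr q P (r + 1) * expand E (q ^ (r + 1)) P := by
        unfold Pr
        rw [Finset.prod_range_succ]
      rw [this]
      ring
    rw [h3]
    congr 1
    have h4 : q ^ (r + 1 + 1) = Q * q := by rw [hQ, pow_succ]
    rw [h4]
    obtain ⟨T, hT⟩ : ∃ T, q = T + 1 := ⟨q - 1, by omega⟩
    have h5 : q * (i : ℕ) + q - 1 = q * i + T := by omega
    rw [h5]
    have h6 : Q * (q * (i : ℕ) + T) + Q = Q * q * i + Q * q := by
      rw [hT]; ring
    omega

end Run7.h834.GK
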